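import Pool.Agent.Helper59.GM.StmtM
import Pool.Agent.Helper59.GM.MainAll

/-!
# MP_af5028_an: transitive geodesic flows are `C ^ 1`-generic in every smooth conformal class on every closed manifold of dimension `n ≥ 3`

The definitions are in `Pool/Agent/Helper59/GM/StmtM.lean`.
-/

set_option autoImplicit false

open scoped ContDiff
open Pool.Agent.Helper59.GMS

namespace Pool.Agent.Results.MP_af5028_an.ClosedManifolds

/-- Let `M` be a closed connected manifold of dimension `n ≥ 3` and let `g` be a smooth Riemannian metric on `M`.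
(1) For every `ε > 0` there is a smooth function `u` on `M` with `|u| < ε`, `|D u| < ε` such that `exp (2 u) g` has a closed geodesic whose unit tangent vectors are `ε`-dense
in the unit tangent bundle.
(2) For all `u` in a dense `G_δ` set of `C ^ 1 (M)`, the metric `exp (2 u) g` has exactly one unit speed geodesic for each initial vector, and its geodesic flow is transitive.
(3) So for every `ε > 0` there is a metric `g'` of class `C ^ 1` on `M`, `ε`-close to `g` in the `C ^ 1` norm, with unique geodesics and transitive geodesic flow. -/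
theorem result (n N : ℕ) (hn : 3 ≤ n) (M U : Set (E N)) (r : E N → E N) (hM : IsClosedManifold n M U r)
    (g : E N → E N → E N → ℝ) (hg : IsMetric ∞ M U r g) :
    (∀ ε : ℝ, 0 < ε → ∃ u : E N → ℝ, IsFun ∞ U r u ∧ CloseFun M r 0 u ε ∧ ∃ (c : ℝ → E N) (P : ℝ), 0 < P ∧
      (∀ t, c (t + P) = c t) ∧ IsGeodesic M r (conf u g) c ∧ UnitSpeed (conf u g) c ∧ EpsDense M r (conf u g) c ε) ∧
    (∃ R : Set (E N → ℝ), DenseGdelta M U r R ∧ ∀ u ∈ R, UniqueGeodesics M r (conf u g) ∧ Transitive M r (conf u g)) ∧
    ∀ ε : ℝ, 0 < ε → ∃ g' : E N → E N → E N → ℝ, IsMetric 1 M U r g' ∧ CloseMetric M r g g' ε ∧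
      UniqueGeodesics M r g' ∧ Transitive M r g' :=
  Pool.Agent.Helper59.GM.main_all hn hM g hg

end Pool.Agent.Results.MP_af5028_an.ClosedManifolds
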